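import Mathlib
import Pool.Agent.K1H92.Rep
import Pool.Agent.K1H92.SqrtSpreadAux

namespace Pool.Agent.Results.MP_eaae5b_nt.SqrtSpread

open Pool.Agent.K1H92

/-- **Spread of the representation function of a basis of order two.**
If every sufficiently large integer `n` has at least `L` representations as an ordered sum of two
elements of `A` (`rep A n` is the number of ordered pairs `(a₁, a₂) ∈ A × A` with `a₁ + a₂ = n`),
then infinitely many integers `n` have at least `L + √L` representations.
For `L = 1000` this gives infinitely many integers with at least `1032 ≥ 1010` representations,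
which answers the question in the affirmative. -/
theorem result (A : Set ℕ) (L : ℕ) (hA : ∃ n₀ : ℕ, ∀ n ≥ n₀, L ≤ rep A n) (N : ℕ) :
    ∃ n ≥ N, (L : ℝ) + Real.sqrt L ≤ (rep A n : ℝ) :=
  Pool.Agent.K1H92.SqrtSpreadAux.spread A L hA N

end Pool.Agent.Results.MP_eaae5b_nt.SqrtSpread
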